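import Pool.Agent.Helper29.HP.Defs

set_option autoImplicit false
set_option linter.unusedVariables false

/-!
Project HP: `C(x, y)` as the fraction field of `C[x, y]` (two variables); clearing denominators and
homogenisation.
-/

namespace Pool.Agent.Helper29.HP

open MvPolynomial

/-- the inclusion of `C[x, y]` in `C(x)[y]` -/
noncomputable def theta' : P2 →ₐ[ℂ] AA :=
  aeval ![Polynomial.C (algebraMap (Polynomial ℂ) kx Polynomial.X), Polynomial.X]

/-- the inclusion of `C[x, y]` in `C(x, y)` -/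
noncomputable def theta : P2 →ₐ[ℂ] KK := (IsScalarTower.toAlgHom ℂ AA KK).comp theta'

theorem theta_apply (g : P2) : theta g = algebraMap AA KK (theta' g) := rfl

theorem theta'_zero : theta' (X 0) = Polynomial.C (algebraMap (Polynomial ℂ) kx Polynomial.X) := by
  simp [theta']

theorem theta'_one : theta' (X 1) = (Polynomial.X : AA) := by
  simp [theta']

theorem psi_eq (P : P3) : psi P = theta' (dh2 P) := by
  have : psi = theta'.comp dh2 := by
    apply MvPolynomial.algHom_ext
    intro i
    rw [AlgHom.comp_apply]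
    simp only [psi, dh2, aeval_X]
    refine Fin.cases ?_ (fun j => ?_) i
    · simp
    · fin_cases j
      · change _ = theta' (X 0)
        rw [theta'_zero]; rfl
      · change _ = theta' (X 1)
        rw [theta'_one]; rfl
  rw [this]; rfl

theorem psiK_eq (P : P3) : psiK P = theta (dh2 P) := by
  rw [theta_apply, ← psi_eq]; rfl

/-- one variable -/
noncomputable def iota1 : MvPolynomial (Fin 1) ℂ →ₐ[ℂ] kx :=
  (IsScalarTower.toAlgHom ℂ (Polynomial ℂ) kx).comp (aeval (fun _ => Polynomial.X))

theorem iota1_injective : Function.Injective iota1 := by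
  have h1 : Function.Injective (aeval (fun _ : Fin 1 => (Polynomial.X : Polynomial ℂ)) :
      MvPolynomial (Fin 1) ℂ →ₐ[ℂ] Polynomial ℂ) := by
    have h2 : (Polynomial.aeval (X 0 : MvPolynomial (Fin 1) ℂ)).comp
        (aeval (fun _ : Fin 1 => (Polynomial.X : Polynomial ℂ)) :
        MvPolynomial (Fin 1) ℂ →ₐ[ℂ] Polynomial ℂ) = AlgHom.id ℂ _ := by
      apply MvPolynomial.algHom_ext
      intro i
      rw [Subsingleton.elim i 0]
      simp
    intro a b hab
    have := congrArg (Polynomial.aeval (X 0 : MvPolynomial (Fin 1) ℂ)) hab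
    have e1 := DFunLike.congr_fun h2 a
    have e2 := DFunLike.congr_fun h2 b
    simp only [AlgHom.comp_apply, AlgHom.id_apply] at e1 e2
    rw [← e1, ← e2, hab]
  intro a b hab
  apply h1
  exact IsFractionRing.injective (Polynomial ℂ) kx hab

theorem theta'_injective : Function.Injective theta' := by
  let sw : P2 ≃ₐ[ℂ] P2 := renameEquiv ℂ (Equiv.swap (0 : Fin 2) 1)
  let e : P2 ≃ₐ[ℂ] Polynomial (MvPolynomial (Fin 1) ℂ) := finSuccEquiv ℂ 1
  have h : theta' = (Polynomial.mapAlgHom iota1).comp ((e : P2 →ₐ[ℂ] _).comp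
      (sw : P2 →ₐ[ℂ] P2)) := by
    apply MvPolynomial.algHom_ext
    intro i
    fin_cases i
    · change theta' (X 0) = Polynomial.mapAlgHom iota1 (finSuccEquiv ℂ 1 (rename _ (X 0)))
      rw [theta'_zero, rename_X, Equiv.swap_apply_left]
      have : (1 : Fin 2) = Fin.succ 0 := rfl
      rw [this, finSuccEquiv_X_succ]
      simp [iota1]
    · change theta' (X 1) = Polynomial.mapAlgHom iota1 (finSuccEquiv ℂ 1 (rename _ (X 1)))
      rw [theta'_one, rename_X, Equiv.swap_apply_right, finSuccEquiv_X_zero]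
      simp
  rw [h]
  intro a b hab
  simp only [AlgHom.comp_apply] at hab
  have h1 : Function.Injective (Polynomial.mapAlgHom iota1) :=
    Polynomial.map_injective _ iota1_injective
  exact sw.injective (e.injective (h1 hab))

theorem theta_injective : Function.Injective theta := by
  intro a b hab
  exact theta'_injective (IsFractionRing.injective AA KK hab)

theorem theta_ne_zero {g : P2} (hg : g ≠ 0) : theta g ≠ 0 := fun h =>
  hg (theta_injective (by rw [h, map_zero]))

theorem theta'_poly (n : Polynomial ℂ) :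
    theta' (Polynomial.aeval (X 0 : P2) n) = Polynomial.C (algebraMap (Polynomial ℂ) kx n) := by
  have h : (theta'.comp (Polynomial.aeval (X 0 : P2))) =
      ((IsScalarTower.toAlgHom ℂ kx AA).comp (IsScalarTower.toAlgHom ℂ (Polynomial ℂ) kx)) := by
    apply Polynomial.algHom_ext
    rw [AlgHom.comp_apply, Polynomial.aeval_X, theta'_zero]
    rfl
  exact DFunLike.congr_fun h n

theorem poly_ne_zero {n : Polynomial ℂ} (hn : n ≠ 0) : Polynomial.aeval (X 0 : P2) n ≠ 0 := by
  intro h
  have h1 := theta'_poly n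
  rw [h, map_zero] at h1
  have h2 := Polynomial.C_eq_zero.mp h1.symm
  exact hn (IsFractionRing.injective (Polynomial ℂ) kx (by rw [h2, map_zero]))

theorem clear_AA (a : AA) : ∃ d g : P2, d ≠ 0 ∧ theta' d * a = theta' g := by
  induction a using Polynomial.induction_on with
  | C c =>
    obtain ⟨n, m, hm, rfl⟩ := IsFractionRing.div_surjective (A := Polynomial ℂ) c
    have hm0 : m ≠ 0 := nonZeroDivisors.ne_zero hm
    refine ⟨Polynomial.aeval (X 0 : P2) m, Polynomial.aeval (X 0 : P2) n, poly_ne_zero hm0, ?_⟩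
    rw [theta'_poly, theta'_poly, ← Polynomial.C_mul]
    congr 1
    rw [mul_div_cancel₀]
    intro h
    exact hm0 (IsFractionRing.injective (Polynomial ℂ) kx (by rw [h, map_zero]))
  | add p q hp hq =>
    obtain ⟨d1, g1, h1, e1⟩ := hp
    obtain ⟨d2, g2, h2, e2⟩ := hq
    refine ⟨d1 * d2, d2 * g1 + d1 * g2, mul_ne_zero h1 h2, ?_⟩
    rw [map_mul, map_add, map_mul, map_mul, ← e1, ← e2]
    ring
  | monomial n c h =>
    obtain ⟨d, g, h1, e1⟩ := h
    refine ⟨d, g * X 1, h1, ?_⟩
    rw [map_mul, ← e1, theta'_one, pow_succ]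
    ring

theorem clear_KK (f : KK) : ∃ d g : P2, d ≠ 0 ∧ theta d * f = theta g := by
  obtain ⟨a, b, hb, rfl⟩ := IsFractionRing.div_surjective (A := AA) f
  have hb0 : b ≠ 0 := nonZeroDivisors.ne_zero hb
  have hb1 : algebraMap AA KK b ≠ 0 := by
    intro h
    exact hb0 (IsFractionRing.injective AA KK (by rw [h, map_zero]))
  obtain ⟨d1, g1, h1, e1⟩ := clear_AA a
  obtain ⟨d2, g2, h2, e2⟩ := clear_AA b
  have hg2 : g2 ≠ 0 := by
    rintro rfl
    rw [map_zero] at e2
    rcases mul_eq_zero.mp e2 with h | h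
    · exact h2 (theta'_injective (by rw [h, map_zero]))
    · exact hb0 h
  refine ⟨d1 * g2, g1 * d2, mul_ne_zero h1 hg2, ?_⟩
  rw [map_mul, map_mul, theta_apply, theta_apply, theta_apply, theta_apply, ← e1, ← e2, map_mul,
    map_mul]
  field_simp

/-- a common denominator for a finite family -/
theorem clear_family {ι : Type*} [Fintype ι] (f : ι → KK) :
    ∃ (d : P2) (g : ι → P2), d ≠ 0 ∧ ∀ i, theta d * f i = theta (g i) := by
  classical
  choose d g hd hg using fun i => clear_KK (f i)
  refine ⟨∏ i, d i, fun i => (∏ j ∈ Finset.univ.erase i, d j) * g i,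
    Finset.prod_ne_zero_iff.mpr fun i _ => hd i, fun i => ?_⟩
  rw [map_mul, ← hg, ← Finset.prod_erase_mul _ _ (Finset.mem_univ i), map_mul]
  ring

/-- homogenisation -/
theorem exists_hom (g : P2) : ∃ (N : ℕ) (H : P3), H.IsHomogeneous N ∧ dh2 H = g := by
  induction g using MvPolynomial.induction_on with
  | C a =>
    refine ⟨0, C a, isHomogeneous_C _ _, ?_⟩
    rw [dh2, algHom_C, MvPolynomial.algebraMap_eq]
  | add p q hp hq =>
    obtain ⟨N1, H1, h1, e1⟩ := hp
    obtain ⟨N2, H2, h2, e2⟩ := hq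
    refine ⟨N2 + N1, X 0 ^ N2 * H1 + X 0 ^ N1 * H2, ?_, ?_⟩
    · refine ((isHomogeneous_X_pow _ _).mul h1).add ?_
      rw [add_comm N2 N1]
      exact (isHomogeneous_X_pow _ _).mul h2
    · have h0 : dh2 (X 0) = 1 := by simp [dh2]
      rw [map_add, map_mul, map_mul, map_pow, map_pow, h0, e1, e2]
      simp
  | mul_X p j hp =>
    obtain ⟨N1, H1, h1, e1⟩ := hp
    refine ⟨N1 + 1, H1 * X j.succ, h1.mul (isHomogeneous_X _ _), ?_⟩
    have h0 : dh2 (X j.succ) = X j := by simp [dh2]
    rw [map_mul, e1, h0]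

theorem aeval_dh2 {S : Type*} [CommRing S] [Algebra ℂ S] (t : Fin 2 → S) (P : P3) :
    aeval t (dh2 P) = aeval (Fin.cons 1 t : Fin 3 → S) P := by
  have : (aeval t : P2 →ₐ[ℂ] S).comp dh2 = aeval (Fin.cons 1 t : Fin 3 → S) := by
    apply MvPolynomial.algHom_ext
    intro i
    rw [AlgHom.comp_apply, dh2, aeval_X, aeval_X]
    refine Fin.cases ?_ (fun j => ?_) i
    · simp
    · simp
  rw [← this]; rfl

end Pool.Agent.Helper29.HP
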