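import Mathlib
import Pool.Agent.Helper29.HP.Defs

set_option autoImplicit false
set_option linter.unusedVariables false
set_option linter.unusedSectionVars false
set_option linter.unusedSimpArgs false

/-!
Project HP: nets of quadrics over an algebra, the vector `TT`, and a complex point of the cubic in
general position.
-/

namespace Pool.Agent.Helper29.HP

open MvPolynomial Module

section net

variable {S S' : Type*} [CommRing S] [Algebra ℂ S] [CommRing S'] [Algebra ℂ S']
variable (m : Fin 3 → Matrix (Fin 6) (Fin 6) ℂ) (p : Fin 6 → ℂ)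

/-- the matrix of the quadric `z` of the net -/
noncomputable def netS (z : Fin 3 → S) : Matrix (Fin 6) (Fin 6) S :=
  Matrix.of fun i j => ∑ k, algebraMap ℂ S (m k i j) * z k

variable (S) in
/-- the three matrices over an algebra -/
noncomputable def mS : Fin 3 → Matrix (Fin 6) (Fin 6) S := fun k => (m k).map (algebraMap ℂ S)

variable (S) in
/-- the base point over an algebra -/
noncomputable def pS : Fin 6 → S := fun i => algebraMap ℂ S (p i)

theorem netP_map (z : Fin 3 → S) : (netP m).map (aeval z) = netS m z := by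
  ext i j
  simp only [netP, netS, Matrix.map_apply, Matrix.of_apply, map_sum, map_mul, aeval_X, algHom_C]

theorem netS_map (φ : S →ₐ[ℂ] S') (z : Fin 3 → S) :
    (netS m z).map φ = netS m (fun k => φ (z k)) := by
  ext i j
  simp only [netS, Matrix.map_apply, Matrix.of_apply, map_sum, map_mul, AlgHom.commutes]

theorem netS_smul (a : S) (z : Fin 3 → S) : netS m (a • z) = a • netS m z := by
  ext i j
  simp only [netS, Matrix.of_apply, Pi.smul_apply, Matrix.smul_apply, smul_eq_mul, Finset.mul_sum]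
  refine Finset.sum_congr rfl fun k _ => ?_
  ring

theorem netS_eq_sum (z : Fin 3 → S) : netS m z = ∑ k, z k • mS S m k := by
  ext i j
  simp only [netS, mS, Matrix.of_apply, Matrix.sum_apply, Matrix.smul_apply, smul_eq_mul,
    Matrix.map_apply]
  refine Finset.sum_congr rfl fun k _ => ?_
  ring

theorem netS_dot (z : Fin 3 → S) (x y : Fin 6 → S) :
    x ⬝ᵥ (netS m z).mulVec y = ∑ k, z k * (x ⬝ᵥ (mS S m k).mulVec y) := by
  rw [netS_eq_sum, Matrix.sum_mulVec, dotProduct_sum]
  refine Finset.sum_congr rfl fun k _ => ?_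
  rw [Matrix.smul_mulVec, dotProduct_smul, smul_eq_mul]

variable {m}

theorem mS_symm (hm : ∀ k, (m k).IsSymm) (k : Fin 3) : (mS S m k).IsSymm := by
  ext i j
  rw [Matrix.transpose_apply, mS, Matrix.map_apply, Matrix.map_apply, (hm k).apply]

theorem dot_symm {n : ℕ} {A : Matrix (Fin n) (Fin n) S} (hA : A.IsSymm) (x y : Fin n → S) :
    x ⬝ᵥ A.mulVec y = y ⬝ᵥ A.mulVec x := by
  rw [Matrix.dotProduct_mulVec, ← Matrix.mulVec_transpose, hA.eq, dotProduct_comm]

variable {p}

theorem pS_dot (hpp : ∀ k, p ⬝ᵥ (m k).mulVec p = 0) (k : Fin 3) :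
    pS S p ⬝ᵥ (mS S m k).mulVec (pS S p) = 0 := by
  have h1 : pS S p ⬝ᵥ (mS S m k).mulVec (pS S p) = algebraMap ℂ S (p ⬝ᵥ (m k).mulVec p) := by
    simp only [pS, mS, dotProduct, Matrix.mulVec, map_sum, map_mul, Matrix.map_apply]
  rw [h1, hpp, map_zero]

variable (m p)

/-- the vector `TT` over an algebra -/
noncomputable def TTS (v : Fin 6 → S) : Fin 3 → S := TT (mS S m) (pS S p) v

theorem TTS_complex (v : Fin 6 → ℂ) : TTS m p v = TT m p v := by
  have h1 : mS ℂ m = m := by
    funext k
    ext i j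
    simp [mS]
  have h2 : pS ℂ p = p := by
    funext i
    simp [pS]
  rw [TTS, h1, h2]

theorem map_TTS (φ : S →ₐ[ℂ] S') (v : Fin 6 → S) (i : Fin 3) :
    φ (TTS m p v i) = TTS m p (fun k => φ (v k)) i := by
  have h1 : ∀ k, φ (pS S p ⬝ᵥ (mS S m k).mulVec v) =
      pS S' p ⬝ᵥ (mS S' m k).mulVec (fun k => φ (v k)) := by
    intro k
    simp only [pS, mS, dotProduct, Matrix.mulVec, map_sum, map_mul, Matrix.map_apply,
      AlgHom.commutes]
  have h2 : ∀ k, φ (v ⬝ᵥ (mS S m k).mulVec v) =
      (fun k => φ (v k)) ⬝ᵥ (mS S' m k).mulVec (fun k => φ (v k)) := by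
    intro k
    simp only [pS, mS, dotProduct, Matrix.mulVec, map_sum, map_mul, Matrix.map_apply,
      AlgHom.commutes]
  have key : ∀ a b : Fin 3 → S, φ ((crossProduct a b) i) =
      (crossProduct (fun k => φ (a k)) (fun k => φ (b k))) i := by
    intro a b
    rw [cross_apply, cross_apply]
    fin_cases i
    · change φ (a 1 * b 2 - a 2 * b 1) = _
      simp only [map_sub, map_mul]; rfl
    · change φ (a 2 * b 0 - a 0 * b 2) = _
      simp only [map_sub, map_mul]; rfl
    · change φ (a 0 * b 1 - a 1 * b 0) = _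
      simp only [map_sub, map_mul]; rfl
  change φ ((crossProduct _ _) i) = (crossProduct _ _) i
  rw [key]
  simp only [h1, h2]

theorem TTS_smul (a : S) (v : Fin 6 → S) : TTS m p (a • v) = a ^ 3 • TTS m p v := by
  simp only [TTS, TT, Matrix.mulVec_smul, dotProduct_smul, smul_dotProduct, smul_eq_mul,
    cross_apply]
  funext i
  fin_cases i <;> simp <;> ring

variable {m p}

theorem TTS_add (hm : ∀ k, (m k).IsSymm) (hpp : ∀ k, p ⬝ᵥ (m k).mulVec p = 0) (a : S)
    (v : Fin 6 → S) : TTS m p (v + a • pS S p) = TTS m p v := by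
  have h1 : ∀ k, pS S p ⬝ᵥ (mS S m k).mulVec (v + a • pS S p) =
      pS S p ⬝ᵥ (mS S m k).mulVec v := by
    intro k
    rw [Matrix.mulVec_add, dotProduct_add, Matrix.mulVec_smul, dotProduct_smul, pS_dot hpp,
      smul_zero, add_zero]
  have h2 : ∀ k, (v + a • pS S p) ⬝ᵥ (mS S m k).mulVec (v + a • pS S p) =
      v ⬝ᵥ (mS S m k).mulVec v + 2 * a * (pS S p ⬝ᵥ (mS S m k).mulVec v) := by
    intro k
    rw [Matrix.mulVec_add, dotProduct_add, add_dotProduct, add_dotProduct, Matrix.mulVec_smul,
      dotProduct_smul, dotProduct_smul, smul_dotProduct, smul_dotProduct, pS_dot hpp,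
      dot_symm (mS_symm hm k) v (pS S p)]
    simp only [smul_eq_mul, mul_zero, add_zero]
    ring
  simp only [TTS, TT, h1, h2, cross_apply]
  funext i
  fin_cases i <;> simp <;> ring

theorem cross_prop (z a b : Fin 3 → S) (h1 : z 0 * a 0 + z 1 * a 1 + z 2 * a 2 = 0)
    (h2 : z 0 * b 0 + z 1 * b 1 + z 2 * b 2 = 0) (i j : Fin 3) :
    z i * (crossProduct a b) j = z j * (crossProduct a b) i := by
  have e0 : (crossProduct a b) 0 = a 1 * b 2 - a 2 * b 1 := by rw [cross_apply]; rfl
  have e1 : (crossProduct a b) 1 = a 2 * b 0 - a 0 * b 2 := by rw [cross_apply]; rfl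
  have e2 : (crossProduct a b) 2 = a 0 * b 1 - a 1 * b 0 := by rw [cross_apply]; rfl
  fin_cases i <;> fin_cases j
  · rfl
  · change z 0 * (crossProduct a b) 1 = z 1 * (crossProduct a b) 0
    rw [e0, e1]; linear_combination a 2 * h2 - b 2 * h1
  · change z 0 * (crossProduct a b) 2 = z 2 * (crossProduct a b) 0
    rw [e0, e2]; linear_combination b 1 * h1 - a 1 * h2
  · change z 1 * (crossProduct a b) 0 = z 0 * (crossProduct a b) 1
    rw [e0, e1]; linear_combination -(a 2 * h2) + b 2 * h1
  · rfl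
  · change z 1 * (crossProduct a b) 2 = z 2 * (crossProduct a b) 1
    rw [e1, e2]; linear_combination a 0 * h2 - b 0 * h1
  · change z 2 * (crossProduct a b) 0 = z 0 * (crossProduct a b) 2
    rw [e0, e2]; linear_combination -(b 1 * h1) + a 1 * h2
  · change z 2 * (crossProduct a b) 1 = z 1 * (crossProduct a b) 2
    rw [e1, e2]; linear_combination -(a 0 * h2) + b 0 * h1
  · rfl

/-- a point of the plane on both lines is proportional to `TT` -/
theorem TTS_prop (z : Fin 3 → S) (v : Fin 6 → S)
    (h1 : pS S p ⬝ᵥ (netS m z).mulVec v = 0) (h2 : v ⬝ᵥ (netS m z).mulVec v = 0) (i j : Fin 3) :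
    z i * TTS m p v j = z j * TTS m p v i := by
  rw [netS_dot, Fin.sum_univ_three] at h1 h2
  exact cross_prop z _ _ h1 h2 i j

/-- conversely `TT` lies on both lines -/
theorem TTS_orth (v : Fin 6 → S) :
    pS S p ⬝ᵥ (netS m (TTS m p v)).mulVec v = 0 ∧ v ⬝ᵥ (netS m (TTS m p v)).mulVec v = 0 := by
  rw [netS_dot, netS_dot, Fin.sum_univ_three, Fin.sum_univ_three]
  simp only [TTS, TT, cross_apply]
  constructor <;> simp <;> ring

end net

end Pool.Agent.Helper29.HP
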