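import Mathlib
import Pool.Agent.Helper72.HP.Net
import Pool.Agent.Helper16.CubicSing
import Pool.Agent.Helper72.HP.Denom

set_option autoImplicit false
set_option linter.unusedVariables false
set_option linter.unusedSectionVars false
set_option linter.unusedSimpArgs false

/-!
Project HP: the similarity with polynomial coefficients.
-/

namespace Pool.Agent.Helper29.HP

open MvPolynomial Module

/-- the point `(1, t)` -/
def ZZ {S : Type*} [CommRing S] (t : Fin 2 → S) : Fin 3 → S := Fin.cons 1 t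

open Pool.Agent.Helper16 in
/-- a similarity of the quadric surface with `p^⊥ / p`, with polynomial coefficients -/
structure Sim (c : Cub (I6 → ℂ)) (m : Fin 3 → Matrix (Fin 6) (Fin 6) ℂ) (p : Fin 6 → ℂ) where
  Φ : Matrix (Fin 6) (Fin 4) P2
  α : P2
  γ : P2
  hα : α ≠ 0
  hγ : γ ≠ 0
  e1 : Matrix.vecMul (pS P2 p) ((netP m).map dh2 * Φ) = 0
  e2 : γ • (c.Nm (X : Fin 3 → P3)).map dh2 = α • (Φ.transpose * (netP m).map dh2 * Φ)

section

open Pool.Agent.Helper16

variable {c : Cub (I6 → ℂ)} {m : Fin 3 → Matrix (Fin 6) (Fin 6) ℂ} {p : Fin 6 → ℂ}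

theorem map_dh2 {S : Type*} [CommRing S] [Algebra ℂ S] (t : Fin 2 → S) {a b : Type*}
    (A : Matrix a b P3) : (A.map dh2).map (aeval t) = A.map (aeval (ZZ t)) := by
  ext i j
  simp only [Matrix.map_apply]
  exact aeval_dh2 t _

theorem Nm_map_aeval {S : Type*} [CommRing S] [Algebra ℂ S] (z : Fin 3 → S) :
    (c.Nm (X : Fin 3 → P3)).map (aeval z) = c.Nm z := by
  rw [Cub.Nm_map]
  simp

theorem Sim.E1 (D : Sim c m p) {S : Type*} [CommRing S] [Algebra ℂ S] (t : Fin 2 → S)
    (y : Fin 4 → S) :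
    pS S p ⬝ᵥ (netS m (ZZ t)).mulVec ((D.Φ.map (aeval t)).mulVec y) = 0 := by
  have h1 : Matrix.vecMul (pS S p) (netS m (ZZ t) * D.Φ.map (aeval t)) = 0 := by
    have h2 := congrArg (fun v : Fin 4 → P2 => fun i => aeval t (v i)) D.e1
    funext i
    have h3 := congrFun h2 i
    simp only [Pi.zero_apply, map_zero] at h3
    rw [Pi.zero_apply, ← h3, ← netP_map, ← map_dh2]
    simp only [Matrix.vecMul, dotProduct, Matrix.mul_apply, map_sum, map_mul, Matrix.map_apply,
      pS, AlgHom.commutes]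
  rw [Matrix.mulVec_mulVec, Matrix.dotProduct_mulVec, h1, zero_dotProduct]

theorem Sim.E2 (D : Sim c m p) {S : Type*} [CommRing S] [Algebra ℂ S] (t : Fin 2 → S)
    (y y' : Fin 4 → S) :
    aeval t D.γ * c.nf (ZZ t) y y' = aeval t D.α *
      ((D.Φ.map (aeval t)).mulVec y ⬝ᵥ (netS m (ZZ t)).mulVec ((D.Φ.map (aeval t)).mulVec y')) := by
  have h1 : aeval t D.γ • c.Nm (ZZ t) =
      aeval t D.α • ((D.Φ.map (aeval t)).transpose * netS m (ZZ t) * D.Φ.map (aeval t)) := by
    have h2 := congrArg (fun A : Matrix (Fin 4) (Fin 4) P2 => A.map (aeval t)) D.e2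
    ext i j
    have h3 := congrFun (congrFun h2 i) j
    simp only [Matrix.map_apply, Matrix.smul_apply, smul_eq_mul, map_mul] at h3
    simp only [Matrix.smul_apply, smul_eq_mul]
    rw [← netP_map, ← map_dh2, ← Nm_map_aeval, ← map_dh2, Matrix.map_apply, Matrix.map_apply]
    refine Eq.trans ?_ (h3.trans ?_)
    · rfl
    · congr 1
      simp only [Matrix.mul_apply, Matrix.transpose_apply, map_sum, map_mul, Matrix.map_apply]
  rw [Cub.nf_eq_dot]
  have h4 := congrArg (fun A : Matrix (Fin 4) (Fin 4) S => y ⬝ᵥ A.mulVec y') h1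
  simp only [Matrix.smul_mulVec, dotProduct_smul, smul_eq_mul] at h4
  rw [h4]
  congr 1
  rw [Matrix.mul_assoc, ← Matrix.mulVec_mulVec, ← Matrix.mulVec_mulVec, Matrix.dotProduct_mulVec,
    Matrix.vecMul_transpose]

/-- clearing denominators -/
theorem exists_sim (Φ : Matrix (Fin 6) (Fin 4) KK) (μ : KK) (hμ : μ ≠ 0)
    (h1 : ∀ y, (fun i => algebraMap ℂ KK (p i)) ⬝ᵥ
      ((netP m).map psiK).mulVec (Φ.mulVec y) = 0)
    (h2 : ∀ y y', y ⬝ᵥ ((c.Nm (X : Fin 3 → P3)).map psiK).mulVec y' =
      μ * (Φ.mulVec y ⬝ᵥ ((netP m).map psiK).mulVec (Φ.mulVec y'))) : Nonempty (Sim c m p) := by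
  classical
  obtain ⟨d, g, hd, hg⟩ := clear_family (fun ij : Fin 6 × Fin 4 => Φ ij.1 ij.2)
  obtain ⟨b, a, hb, hab⟩ := clear_KK μ
  have ha : a ≠ 0 := by
    rintro rfl
    rw [map_zero] at hab
    rcases mul_eq_zero.mp hab with h | h
    · exact theta_ne_zero hb h
    · exact hμ h
  let Φ1 : Matrix (Fin 6) (Fin 4) P2 := Matrix.of fun i j => g (i, j)
  have hΦ1 : Φ1.map theta = theta d • Φ := by
    ext i j
    simp only [Φ1, Matrix.map_apply, Matrix.of_apply, Matrix.smul_apply, smul_eq_mul]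
    exact (hg (i, j)).symm
  have hpsi : ∀ {r s : Type} (A : Matrix r s P3), A.map psiK = (A.map dh2).map theta := by
    intro r s A
    ext i j
    simp only [Matrix.map_apply, psiK_eq]
  refine ⟨⟨Φ1, a, b * d ^ 2, ha, mul_ne_zero hb (pow_ne_zero 2 hd), ?_, ?_⟩⟩
  · funext j
    apply theta_injective
    rw [Pi.zero_apply, map_zero]
    have h3 := h1 (Pi.single j (theta d))
    have h4 : Φ.mulVec (Pi.single j (theta d)) = (Φ1.map theta).mulVec (Pi.single j 1) := by
      rw [hΦ1]
      funext i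
      simp [Matrix.mulVec_single, mul_comm]
    rw [h4, hpsi, Matrix.mulVec_mulVec, Matrix.dotProduct_mulVec, dotProduct_single_one] at h3
    rw [← h3]
    simp only [Matrix.vecMul, dotProduct, Matrix.mul_apply, map_sum, map_mul, Matrix.map_apply,
      pS, AlgHom.commutes]
  · refine Matrix.ext fun i j => ?_
    apply theta_injective
    have h3 := h2 (Pi.single i (theta d)) (Pi.single j (theta d))
    have h4 : ∀ j, Φ.mulVec (Pi.single j (theta d)) = (Φ1.map theta).mulVec (Pi.single j 1) := by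
      intro j
      rw [hΦ1]
      funext i
      simp [Matrix.mulVec_single, mul_comm]
    rw [h4, h4, hpsi, hpsi] at h3
    have h5 : (Pi.single i (theta d) : Fin 4 → KK) ⬝ᵥ
        (((c.Nm (X : Fin 3 → P3)).map dh2).map theta).mulVec (Pi.single j (theta d)) =
        theta (d ^ 2) * theta ((c.Nm (X : Fin 3 → P3)).map dh2 i j) := by
      rw [map_pow]
      simp [Matrix.mulVec_single, single_dotProduct]
      ring
    have h6 : (Φ1.map theta).mulVec (Pi.single i 1) ⬝ᵥ
        (((netP m).map dh2).map theta).mulVec ((Φ1.map theta).mulVec (Pi.single j 1)) =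
        theta ((Φ1.transpose * (netP m).map dh2 * Φ1) i j) := by
      rw [Matrix.mul_assoc, Matrix.mulVec_single_one, Matrix.mulVec_single_one]
      simp only [Matrix.mul_apply, map_sum, map_mul, dotProduct,
        Matrix.mulVec, Matrix.map_apply, Matrix.transpose_apply, Matrix.col_apply]
    rw [h5, h6] at h3
    simp only [Matrix.smul_apply, smul_eq_mul, map_mul]
    rw [← hab]
    linear_combination theta b * h3

end

end Pool.Agent.Helper29.HP
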