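import Mathlib
import Pool.Agent.Helper72.HP.Data
import Pool.Agent.Helper16.CubicQB

set_option autoImplicit false
set_option linter.unusedVariables false
set_option linter.unusedSectionVars false
set_option linter.unusedSimpArgs false

/-!
Project HP: a complex point of the cubic in general position.
-/

namespace Pool.Agent.Helper29.HP

open MvPolynomial Module

section

open Pool.Agent.Helper16

variable {c : Cub (I6 → ℂ)} {m : Fin 3 → Matrix (Fin 6) (Fin 6) ℂ} {p : Fin 6 → ℂ}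

theorem aeval_eval {σ : Type*} (t : σ → ℂ) (g : MvPolynomial σ ℂ) : aeval t g = eval t g := by
  rw [aeval_eq_eval]

theorem pS_complex : pS ℂ p = p := by
  funext i
  simp [pS]

/-- every vector of `p^⊥` is in the image of `Φ` modulo `p` -/
theorem Sim.decomp (D : Sim c m p) (hm : ∀ k, (m k).IsSymm) (hp : p ≠ 0)
    (hpp : ∀ k, p ⬝ᵥ (m k).mulVec p = 0) {t : Fin 2 → ℂ} (hα : aeval t D.α ≠ 0)
    (hγ : aeval t D.γ ≠ 0) (hN : (c.Nm (ZZ t)).det ≠ 0) (hM : (netS m (ZZ t)).det ≠ 0)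
    (v : Fin 6 → ℂ) (hv : p ⬝ᵥ (netS m (ZZ t)).mulVec v = 0) :
    ∃ (w : Fin 4 → ℂ) (l : ℂ), v = (D.Φ.map (aeval t)).mulVec w + l • p := by
  set Φt := D.Φ.map (aeval t) with hΦt
  set M := netS m (ZZ t) with hMdef
  have hE1 : ∀ y, p ⬝ᵥ M.mulVec (Φt.mulVec y) = 0 := by
    intro y
    have := D.E1 t y
    rwa [pS_complex] at this
  have hMs : M.IsSymm := by
    rw [hMdef, netS_eq_sum]
    ext i j
    rw [Matrix.transpose_apply, Matrix.sum_apply, Matrix.sum_apply]
    refine Finset.sum_congr rfl fun k _ => ?_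
    rw [Matrix.smul_apply, Matrix.smul_apply, (mS_symm hm k).apply]
  have hpMp : p ⬝ᵥ M.mulVec p = 0 := by
    have h1 := netS_dot (S := ℂ) m (ZZ t) p p
    rw [h1]
    refine Finset.sum_eq_zero fun k _ => ?_
    have h2 := pS_dot (S := ℂ) hpp k
    rw [pS_complex] at h2
    rw [h2, mul_zero]
  let L : ((Fin 4 → ℂ) × ℂ) →ₗ[ℂ] (Fin 6 → ℂ) :=
    (Matrix.mulVecLin Φt).coprod (LinearMap.toSpanSingleton ℂ _ p)
  have hL : ∀ w l, L (w, l) = Φt.mulVec w + l • p := by
    intro w l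
    simp only [L, LinearMap.coprod_apply, Matrix.mulVecLin_apply,
      LinearMap.toSpanSingleton_apply]
  have hLinj : Function.Injective L := by
    refine (injective_iff_map_eq_zero L).mpr ?_
    rintro ⟨w, l⟩ hwl
    rw [hL] at hwl
    have hw : w = 0 := by
      have h1 : ∀ y, c.nf (ZZ t) y w = 0 := by
        intro y
        have h2 := D.E2 t y w
        have h3 : Φt.mulVec w = -(l • p) := eq_neg_of_add_eq_zero_left hwl
        rw [← hΦt, ← hMdef, h3, Matrix.mulVec_neg, Matrix.mulVec_smul, dotProduct_neg,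
          dotProduct_smul, dot_symm hMs, hE1, smul_zero, neg_zero, mul_zero] at h2
        exact (mul_eq_zero.mp h2).resolve_left hγ
      have h4 : (c.Nm (ZZ t)).mulVec w = 0 := by
        funext i
        rw [← Cub.nf_single_left]
        exact h1 _
      exact Matrix.eq_zero_of_mulVec_eq_zero hN h4
    have hl : l = 0 := by
      rw [hw, Matrix.mulVec_zero, zero_add] at hwl
      exact (smul_eq_zero.mp hwl).resolve_right hp
    rw [hw, hl]; rfl
  let f : (Fin 6 → ℂ) →ₗ[ℂ] ℂ :=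
    (LinearMap.mk₂ ℂ (fun x y : Fin 6 → ℂ => x ⬝ᵥ M.mulVec y)
      (by intro a b c; rw [add_dotProduct]) (by intro a b c; rw [smul_dotProduct])
      (by intro a b c; rw [Matrix.mulVec_add, dotProduct_add])
      (by intro a b c; rw [Matrix.mulVec_smul, dotProduct_smul])) p
  have hf : ∀ y, f y = p ⬝ᵥ M.mulVec y := fun y => rfl
  have hf0 : f ≠ 0 := by
    intro h0
    apply hp
    refine Matrix.eq_zero_of_mulVec_eq_zero hM ?_
    funext i
    have h1 := LinearMap.congr_fun h0 (Pi.single i 1)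
    rw [hf, dot_symm hMs, single_one_dotProduct] at h1
    exact h1
  have hker : finrank ℂ (LinearMap.ker f) = 5 := by
    have h1 := LinearMap.finrank_range_add_finrank_ker f
    have h2 : LinearMap.range f = ⊤ := LinearMap.range_eq_top.mpr
      (LinearMap.surjective hf0)
    rw [h2, finrank_top, Module.finrank_self, Module.finrank_fin_fun] at h1
    omega
  have hle : LinearMap.range L ≤ LinearMap.ker f := by
    rintro _ ⟨⟨w, l⟩, rfl⟩
    rw [LinearMap.mem_ker, hL, map_add, map_smul, hf, hf, hE1, hpMp, smul_zero, add_zero]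
  have heq : LinearMap.range L = LinearMap.ker f := by
    apply Submodule.eq_of_le_of_finrank_eq hle
    rw [hker, LinearMap.finrank_range_of_inj hLinj, Module.finrank_prod, Module.finrank_fin_fun,
      Module.finrank_self]
  have hv' : v ∈ LinearMap.range L := by
    rw [heq, LinearMap.mem_ker, hf]
    exact hv
  obtain ⟨⟨w, l⟩, hwl⟩ := hv'
  exact ⟨w, l, by rw [← hwl, hL]⟩

/-- moving an isotropic vector out of the base plane -/
theorem move_out {z : Fin 3 → ℂ} (hN : (c.Nm z).det ≠ 0) {w : Fin 4 → ℂ} (hw : w ≠ 0)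
    (hww : c.nf z w w = 0) (Φ : Matrix (Fin 6) (Fin 4) ℂ) (j : Fin 3)
    (hT : TTS m p (Φ.mulVec w) j ≠ 0) :
    ∃ w' : Fin 4 → ℂ, w' 3 = 1 ∧ c.nf z w' w' = 0 ∧ TTS m p (Φ.mulVec w') j ≠ 0 := by
  obtain ⟨v', hv', hv3, hvw⟩ := Cub.exists_good hN hw hww
  -- a direction leaving the plane
  obtain ⟨r1, hr1⟩ : ∃ r : Fin 4 → ℂ, c.nf z r r - 2 * c.nf z v' r * r 3 ≠ 0 := by
    by_contra hcon
    push Not at hcon
    have hpol : ∀ a b : Fin 4 → ℂ, c.nf z a b = c.nf z v' a * b 3 + c.nf z v' b * a 3 := by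
      intro a b
      have h1 := hcon (a + b)
      have h2 := hcon a
      have h3 := hcon b
      simp only [map_add, LinearMap.add_apply, Pi.add_apply, c.nf_symm z b a] at h1
      linear_combination (1 / 2) * h1 - (1 / 2) * h2 - (1 / 2) * h3
    let g : (Fin 4 → ℂ) →ₗ[ℂ] (ℂ × ℂ) := (c.nf z v').prod (LinearMap.proj 3)
    obtain ⟨a, ha, ha0⟩ : ∃ a, g a = 0 ∧ a ≠ 0 := by
      by_contra hc
      push Not at hc
      have hU : Function.Injective g := (injective_iff_map_eq_zero g).mpr hc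
      have := LinearMap.finrank_le_finrank_of_injective hU
      simp at this
    have ha1 : c.nf z v' a = 0 := congrArg Prod.fst ha
    have ha3 : a 3 = 0 := congrArg Prod.snd ha
    apply ha0
    refine Matrix.eq_zero_of_mulVec_eq_zero hN ?_
    funext i
    rw [← Cub.nf_single_left, c.nf_symm, hpol, ha1, ha3]
    simp
  -- the curve
  let r : Fin 4 → Polynomial ℂ := fun i =>
    (1 - Polynomial.X) * Polynomial.C (w i - v' i) + Polynomial.X * Polynomial.C (r1 i)
  let zP : Fin 3 → Polynomial ℂ := fun i => Polynomial.C (z i)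
  let vP : Fin 4 → Polynomial ℂ := fun i => Polynomial.C (v' i)
  let x : Fin 4 → Polynomial ℂ := c.nf zP r r • vP - (2 * c.nf zP vP r) • r
  have hev : ∀ (s : ℂ) (g : Polynomial ℂ), (Polynomial.aeval s : Polynomial ℂ →ₐ[ℂ] ℂ) g =
      g.eval s := by
    intro s g
    rw [Polynomial.coe_aeval_eq_eval]
  have hr : ∀ (s : ℂ) (i : Fin 4), (Polynomial.aeval s : Polynomial ℂ →ₐ[ℂ] ℂ) (r i) =
      (1 - s) * (w i - v' i) + s * r1 i := by
    intro s i
    rw [hev]
    simp [r]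
    ring
  have hzP : ∀ s : ℂ, (fun i => (Polynomial.aeval s : Polynomial ℂ →ₐ[ℂ] ℂ) (zP i)) = z := by
    intro s; funext i; rw [hev]; simp [zP]
  have hvP : ∀ s : ℂ, (fun i => (Polynomial.aeval s : Polynomial ℂ →ₐ[ℂ] ℂ) (vP i)) = v' := by
    intro s; funext i; rw [hev]; simp [vP]
  let rs : ℂ → Fin 4 → ℂ := fun s i => (1 - s) * (w i - v' i) + s * r1 i
  have hrs : ∀ s : ℂ, (fun i => (Polynomial.aeval s : Polynomial ℂ →ₐ[ℂ] ℂ) (r i)) = rs s := by
    intro s; funext i; rw [hr]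
  have hx : ∀ s : ℂ, (fun i => (Polynomial.aeval s : Polynomial ℂ →ₐ[ℂ] ℂ) (x i)) =
      c.nf z (rs s) (rs s) • v' - (2 * c.nf z v' (rs s)) • rs s := by
    intro s
    funext i
    simp only [x, Pi.sub_apply, Pi.smul_apply, smul_eq_mul, map_sub, map_mul, Cub.map_nf, hzP,
      hvP, hrs]
    have h1 := congrFun (hvP s) i
    have h2 := congrFun (hrs s) i
    rw [h1, h2]
    simp
  have hxx : ∀ s : ℂ, c.nf z (fun i => (Polynomial.aeval s : Polynomial ℂ →ₐ[ℂ] ℂ) (x i))
      (fun i => (Polynomial.aeval s : Polynomial ℂ →ₐ[ℂ] ℂ) (x i)) = 0 := by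
    intro s
    rw [hx]
    simp only [map_sub, map_smul, LinearMap.sub_apply, LinearMap.smul_apply, smul_eq_mul, hv',
      c.nf_symm z (rs s) v']
    ring
  have hrs0 : rs 0 = w - v' := by
    funext i; simp [rs]
  have hrs1 : rs 1 = r1 := by
    funext i; simp [rs]
  have hx0 : (fun i => (Polynomial.aeval (0 : ℂ) : Polynomial ℂ →ₐ[ℂ] ℂ) (x i)) =
      (-(2 * c.nf z v' w)) • w := by
    rw [hx, hrs0]
    simp only [map_sub, LinearMap.sub_apply, hv', hww, c.nf_symm z w v']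
    funext i
    simp only [Pi.sub_apply, Pi.smul_apply, smul_eq_mul]
    ring
  have hx1 : (Polynomial.aeval (1 : ℂ) : Polynomial ℂ →ₐ[ℂ] ℂ) (x 3) ≠ 0 := by
    have h1 := congrFun (hx 1) 3
    rw [h1, hrs1]
    simp only [Pi.sub_apply, Pi.smul_apply, smul_eq_mul, hv3, mul_one]
    exact hr1
  -- the second condition
  let ΦP : Matrix (Fin 6) (Fin 4) (Polynomial ℂ) := Φ.map Polynomial.C
  let TP : Polynomial ℂ := TTS m p (ΦP.mulVec x) j
  have hTP : ∀ s : ℂ, (Polynomial.aeval s : Polynomial ℂ →ₐ[ℂ] ℂ) TP =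
      TTS m p (Φ.mulVec (fun i => (Polynomial.aeval s : Polynomial ℂ →ₐ[ℂ] ℂ) (x i))) j := by
    intro s
    rw [map_TTS]
    congr 1
    congr 1
    funext k
    simp only [Matrix.mulVec, dotProduct, map_sum, map_mul, ΦP, Matrix.map_apply]
    refine Finset.sum_congr rfl fun i _ => ?_
    rw [hev, Polynomial.eval_C]
  have hTP0 : (Polynomial.aeval (0 : ℂ) : Polynomial ℂ →ₐ[ℂ] ℂ) TP ≠ 0 := by
    rw [hTP, hx0, Matrix.mulVec_smul, TTS_smul, Pi.smul_apply, smul_eq_mul]
    refine mul_ne_zero (pow_ne_zero 3 (neg_ne_zero.mpr (mul_ne_zero two_ne_zero hvw))) hT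
  have hprod : TP * x 3 ≠ 0 := by
    refine mul_ne_zero ?_ ?_
    · intro h0; apply hTP0; rw [h0, map_zero]
    · intro h0; apply hx1; rw [h0, map_zero]
  obtain ⟨s, hs⟩ : ∃ s : ℂ, (TP * x 3).eval s ≠ 0 := by
    by_contra hcon
    push Not at hcon
    exact hprod (Polynomial.funext fun s => by rw [hcon, Polynomial.eval_zero])
  rw [Polynomial.eval_mul, ← hev, ← hev] at hs
  have hs1 := left_ne_zero_of_mul hs
  have hs3 := right_ne_zero_of_mul hs
  set xs : Fin 4 → ℂ := fun i => (Polynomial.aeval s : Polynomial ℂ →ₐ[ℂ] ℂ) (x i) with hxs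
  have hxs3 : xs 3 ≠ 0 := hs3
  refine ⟨(xs 3)⁻¹ • xs, ?_, ?_, ?_⟩
  · simp [hxs3]
  · simp only [map_smul, LinearMap.smul_apply, smul_eq_mul, hxx s, mul_zero]
    rw [hxs] at *
    rw [hxx s]
    simp
  · rw [hTP] at hs1
    rw [Matrix.mulVec_smul, TTS_smul, Pi.smul_apply, smul_eq_mul]
    exact mul_ne_zero (pow_ne_zero 3 (inv_ne_zero hxs3)) hs1

/-- the complex point -/
theorem Sim.good_point (hP : c.Iso P0) (D : Sim c m p) (hm : ∀ k, (m k).IsSymm) (hp : p ≠ 0)
    (hpp : ∀ k, p ⬝ᵥ (m k).mulVec p = 0)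
    (hdet : (netP m).det ≠ 0) (hdom : ∀ h : P3, h ≠ 0 → ∃ v : Fin 6 → ℂ, eval (TT m p v) h ≠ 0) :
    ∃ (t : Fin 2 → ℂ) (w : Fin 4 → ℂ) (j : Fin 3), w 3 = 1 ∧ c.nf (ZZ t) w w = 0 ∧
      aeval t D.α ≠ 0 ∧ aeval t D.γ ≠ 0 ∧ (c.Nm (ZZ t)).det ≠ 0 ∧
      TTS m p ((D.Φ.map (aeval t)).mulVec w) j ≠ 0 := by
  obtain ⟨N, H, hH, hHg⟩ := exists_hom (D.α * D.γ)
  have hH0 : H ≠ 0 := by
    rintro rfl
    rw [map_zero] at hHg
    exact mul_ne_zero D.hα D.hγ hHg.symm
  obtain ⟨v1, hv1⟩ := hdom (X 0 * H * c.disc * (netP m).det)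
    (mul_ne_zero (mul_ne_zero (mul_ne_zero (X_ne_zero 0) hH0) (Cub.disc_ne_zero hP)) hdet)
  set T := TT m p v1 with hT
  rw [map_mul, map_mul, map_mul, eval_X] at hv1
  have hd4 := right_ne_zero_of_mul hv1
  have hd3 := right_ne_zero_of_mul (left_ne_zero_of_mul hv1)
  have hd2 := right_ne_zero_of_mul (left_ne_zero_of_mul (left_ne_zero_of_mul hv1))
  have hT0 : T 0 ≠ 0 := left_ne_zero_of_mul (left_ne_zero_of_mul (left_ne_zero_of_mul hv1))
  set t : Fin 2 → ℂ := fun k => T k.succ / T 0 with ht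
  have hTZ : T = T 0 • (ZZ t) := by
    funext i
    refine Fin.cases ?_ (fun j => ?_) i
    · simp [ZZ]
    · simp only [Pi.smul_apply, smul_eq_mul, ZZ, Fin.cons_succ, ht]
      rw [mul_div_cancel₀ _ hT0]
  have hαγ : aeval t (D.α * D.γ) ≠ 0 := by
    rw [← hHg, aeval_dh2]
    intro h0
    apply hd2
    rw [← aeval_eval, hTZ, aeval_smul_hom hH]
    change T 0 ^ N * aeval (Fin.cons 1 t : Fin 3 → ℂ) H = 0
    rw [h0, mul_zero]
  rw [map_mul] at hαγ
  have hN : (c.Nm (ZZ t)).det ≠ 0 := by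
    rw [← Cub.eval_disc]
    intro h0
    apply hd3
    rw [← aeval_eval, hTZ, aeval_smul_hom Cub.disc_hom, aeval_eval, h0, mul_zero]
  have hM : (netS m (ZZ t)).det ≠ 0 := by
    intro h0
    apply hd4
    rw [← aeval_eval, AlgHom.map_det, AlgHom.mapMatrix_apply, netP_map, hTZ, netS_smul,
      Matrix.det_smul, h0, mul_zero]
  have horth := TTS_orth (m := m) (p := p) (S := ℂ) v1
  rw [TTS_complex, ← hT, hTZ, netS_smul, pS_complex, Matrix.smul_mulVec, dotProduct_smul,
    dotProduct_smul] at horth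
  have ho1 := (smul_eq_zero.mp horth.1).resolve_left hT0
  have ho2 := (smul_eq_zero.mp horth.2).resolve_left hT0
  obtain ⟨w, l, hwl⟩ := D.decomp hm hp hpp (left_ne_zero_of_mul hαγ) (right_ne_zero_of_mul hαγ)
    hN hM v1 ho1
  have hTw : TTS m p ((D.Φ.map (aeval t)).mulVec w) = T := by
    have h1 := TTS_add (S := ℂ) hm hpp l ((D.Φ.map (aeval t)).mulVec w)
    rw [pS_complex, ← hwl, TTS_complex] at h1
    exact h1.symm
  have hw0 : w ≠ 0 := by
    rintro rfl
    apply hT0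
    rw [← hTw, Matrix.mulVec_zero]
    simp [TTS, TT, cross_apply]
  have hww : c.nf (ZZ t) w w = 0 := by
    have h1 := D.E2 t w w
    have hE1 := D.E1 t w
    rw [pS_complex] at hE1
    have hMs : (netS m (ZZ t)).IsSymm := by
      rw [netS_eq_sum]
      ext i j
      rw [Matrix.transpose_apply, Matrix.sum_apply, Matrix.sum_apply]
      refine Finset.sum_congr rfl fun k _ => ?_
      rw [Matrix.smul_apply, Matrix.smul_apply, (mS_symm hm k).apply]
    have hpMp : p ⬝ᵥ (netS m (ZZ t)).mulVec p = 0 := by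
      rw [netS_dot (S := ℂ) m (ZZ t) p p]
      refine Finset.sum_eq_zero fun k _ => ?_
      have h2 := pS_dot (S := ℂ) hpp k
      rw [pS_complex] at h2
      rw [h2, mul_zero]
    have h3 : (D.Φ.map (aeval t)).mulVec w ⬝ᵥ
        (netS m (ZZ t)).mulVec ((D.Φ.map (aeval t)).mulVec w) = 0 := by
      rw [hwl, Matrix.mulVec_add, dotProduct_add, add_dotProduct, add_dotProduct,
        Matrix.mulVec_smul, dotProduct_smul, dotProduct_smul, smul_dotProduct, smul_dotProduct,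
        hpMp, dot_symm hMs _ p, hE1] at ho2
      simpa using ho2
    rw [h3, mul_zero] at h1
    exact (mul_eq_zero.mp h1).resolve_left (right_ne_zero_of_mul hαγ)
  obtain ⟨w', h1, h2, h3⟩ := move_out (m := m) (p := p) hN hw0 hww (D.Φ.map (aeval t)) 0
    (by rw [hTw]; exact hT0)
  exact ⟨t, w', 0, h1, h2, left_ne_zero_of_mul hαγ, right_ne_zero_of_mul hαγ, hN, h3⟩

end

end Pool.Agent.Helper29.HP
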